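import Mathlib
import Pool.Agent.Y114.TF.Local3

/-!
# The characteristic polynomial of a diagonal endomorphism of a direct sum
-/

set_option autoImplicit false
set_option linter.unusedSectionVars false

namespace Pool.Agent.Y114.AP

open Module Polynomial Pool.Agent.Y114.TF

theorem det_blockDiagonal'' {ι R : Type} [CommRing R] [Fintype ι] [DecidableEq ι] {m : ι → Type}
    [∀ i, Fintype (m i)] [∀ i, DecidableEq (m i)] (M : ∀ i, Matrix (m i) (m i) R) :
    (Matrix.blockDiagonal' M).det = ∏ i, (M i).det := by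
  classical
  let e := Fintype.equivFin ι
  let hlo : LinearOrder ι := LinearOrder.lift' e e.injective
  have h1 : (Matrix.blockDiagonal' M).BlockTriangular Sigma.fst := by
    rintro ⟨i, i'⟩ ⟨j, j'⟩ h
    exact Matrix.blockDiagonal'_apply_ne M i' j' fun h' => ne_of_lt h h'.symm
  have h2 : (Matrix.blockDiagonal' M).det =
      ∏ i, ((Matrix.blockDiagonal' M).toSquareBlock Sigma.fst i).det := by
    have := h1.det_fintype
    exact this
  rw [h2]
  refine Finset.prod_congr rfl fun i _ => ?_
  let f : m i ≃ {a : Σ i, m i // a.1 = i} :=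
    { toFun := fun x => ⟨⟨i, x⟩, rfl⟩
      invFun := fun a => a.2 ▸ a.1.2
      left_inv := fun x => rfl
      right_inv := by
        rintro ⟨⟨j, x⟩, rfl⟩
        rfl }
  rw [← Matrix.det_reindex_self f]
  congr 1
  ext ⟨⟨j, x⟩, hj⟩ ⟨⟨l, y⟩, hl⟩
  dsimp only at hj hl
  subst hj
  subst hl
  rw [Matrix.toSquareBlock_def, Matrix.of_apply, Matrix.reindex_apply, Matrix.submatrix_apply]
  exact Matrix.blockDiagonal'_apply_eq M _ _ _

theorem charpoly_piEnd' {k : Type} [Field k] {ι : Type} [Fintype ι] [DecidableEq ι]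
    {V : ι → Type} [∀ i, AddCommGroup (V i)] [∀ i, Module k (V i)] [∀ i, FiniteDimensional k (V i)]
    (T : ∀ i, End k (V i)) : (piEnd T).charpoly = ∏ i, (T i).charpoly := by
  classical
  let b : ∀ i, Basis _ k (V i) := fun i => Module.Free.chooseBasis k (V i)
  rw [← LinearMap.charpoly_toMatrix (piEnd T) (Pi.basis b)]
  have h1 : LinearMap.toMatrix (Pi.basis b) (Pi.basis b) (piEnd T) =
      Matrix.blockDiagonal' fun i => LinearMap.toMatrix (b i) (b i) (T i) := by
    ext ⟨i, x⟩ ⟨j, y⟩
    rw [LinearMap.toMatrix_apply, Pi.basis_repr, Pi.basis_apply, piEnd_apply]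
    by_cases hij : i = j
    · subst hij
      rw [Matrix.blockDiagonal'_apply_eq, LinearMap.toMatrix_apply, Pi.single_eq_same]
    · rw [Matrix.blockDiagonal'_apply_ne _ _ _ hij, Pi.single_eq_of_ne hij, map_zero, map_zero,
        Finsupp.zero_apply]
  have h2 : ∀ M : ∀ i, Matrix (Module.Free.ChooseBasisIndex k (V i)) (Module.Free.ChooseBasisIndex k (V i)) k,
      Matrix.charmatrix (Matrix.blockDiagonal' M) = Matrix.blockDiagonal' fun i => (M i).charmatrix := by
    intro M
    ext1 ⟨i, x⟩ ⟨j, y⟩
    by_cases hij : i = j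
    · subst hij
      rw [Matrix.blockDiagonal'_apply_eq, Matrix.charmatrix_apply, Matrix.charmatrix_apply,
        Matrix.blockDiagonal'_apply_eq]
      congr 1
      by_cases hxy : x = y
      · subst hxy
        rw [Matrix.diagonal_apply_eq, Matrix.diagonal_apply_eq]
      · rw [Matrix.diagonal_apply_ne _ hxy, Matrix.diagonal_apply_ne]
        intro h
        apply hxy
        simpa using h
    · rw [Matrix.blockDiagonal'_apply_ne _ _ _ hij, Matrix.charmatrix_apply,
        Matrix.blockDiagonal'_apply_ne _ _ _ hij, Matrix.diagonal_apply_ne]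
      · simp
      · intro h
        exact hij (congrArg Sigma.fst h)
  rw [h1, Matrix.charpoly, h2, det_blockDiagonal'']
  refine Finset.prod_congr rfl fun i _ => ?_
  rw [← LinearMap.charpoly_toMatrix (T i) (b i)]
  rfl

end Pool.Agent.Y114.AP
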