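import Mathlib
import Pool.Agent.Y114.AP.Nil

/-!
# Irreducible representations with an element of large unipotency index

An irreducible representation of dimension `n` in which some element `g` is unipotent with
`(g - 1) ^ (n / 2) ≠ 0` is absolutely irreducible under all subgroups of finite index.
-/

set_option autoImplicit false
set_option linter.unusedSectionVars false

namespace Pool.Agent.Y114.AP

open Module Polynomial

variable {k : Type*} [Field k] [CharZero k] {V : Type*} [AddCommGroup V] [Module k V]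
  [FiniteDimensional k V] {Γ : Type*} [Group Γ] (ρ : Representation k Γ V)

theorem rho_inv_mul (g : Γ) (v : V) : ρ g (ρ g⁻¹ v) = v := by
  rw [← Module.End.mul_apply, ← map_mul, mul_inv_cancel, map_one, Module.End.one_apply]

theorem rho_mul_inv (g : Γ) (v : V) : ρ g⁻¹ (ρ g v) = v := by
  rw [← Module.End.mul_apply, ← map_mul, inv_mul_cancel, map_one, Module.End.one_apply]

/-- A nilpotent endomorphism which preserves a subspace of dimension `d`, vanishes there in the
`d`-th power. -/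
theorem pow_finrank_restrict {ν : End k V} (hν : IsNilpotent ν) {U : Submodule k V}
    (hU : ∀ u ∈ U, ν u ∈ U) {u : V} (hu : u ∈ U) : (ν ^ (finrank k U)) u = 0 := by
  have h1 : IsNilpotent (ν.restrict hU) := by
    obtain ⟨m, hm⟩ := hν
    refine ⟨m, ?_⟩
    rw [Module.End.pow_restrict]
    ext x
    change (ν ^ m) x = 0
    rw [hm]
    rfl
  have h2 : (ν.restrict hU) ^ (finrank k U) = 0 := by
    have h3 := (ν.restrict hU).aeval_self_charpoly
    rw [(show LinearMap.charpoly (ν.restrict hU) = _ from IsNilpotent.charpoly_eq_X_pow_finrank h1)] at h3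
    simpa using h3
  rw [Module.End.pow_restrict] at h2
  have h3 := congrArg Subtype.val (LinearMap.congr_fun h2 ⟨u, hu⟩)
  exact h3

/-- Irreducibility under normal subgroups of finite index. -/
theorem irreducible_normal (hirr : ∀ U : Submodule k V, (∀ g, ∀ u ∈ U, ρ g u ∈ U) → U = ⊥ ∨ U = ⊤)
    (Δ : Subgroup Γ) [Δ.Normal] {μ : Γ} (hμ : μ ∈ Δ) (hnil : IsNilpotent (ρ μ - 1))
    (hne : (ρ μ - 1) ^ (finrank k V / 2) ≠ 0) (U : Submodule k V)
    (hU : ∀ g ∈ Δ, ∀ u ∈ U, ρ g u ∈ U) : U = ⊥ ∨ U = ⊤ := by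
  classical
  by_contra hcon
  rw [not_or] at hcon
  obtain ⟨hbot, htop⟩ := hcon
  -- a minimal stable subspace
  let P : ℕ → Prop := fun d => ∃ W : Submodule k V, W ≠ ⊥ ∧ W ≠ ⊤ ∧
    (∀ g ∈ Δ, ∀ u ∈ W, ρ g u ∈ W) ∧ finrank k W = d
  have hP : ∃ d, P d := ⟨_, U, hbot, htop, hU, rfl⟩
  obtain ⟨W, hWb, hWt, hWs, hWd⟩ := Nat.find_spec hP
  have hmin : ∀ W' : Submodule k V, W' ≠ ⊥ → W' ≠ ⊤ → (∀ g ∈ Δ, ∀ u ∈ W', ρ g u ∈ W') →
      finrank k W ≤ finrank k W' := by
    intro W' h1 h2 h3
    rw [hWd]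
    exact Nat.find_min' hP ⟨W', h1, h2, h3, rfl⟩
  let T : Γ → Submodule k V := fun g => W.map (ρ g)
  have hTs : ∀ g, ∀ h ∈ Δ, ∀ u ∈ T g, ρ h u ∈ T g := by
    rintro g h hh _ ⟨w, hw, rfl⟩
    refine ⟨ρ (g⁻¹ * h * g) w, hWs _ ?_ w hw, ?_⟩
    · have := (inferInstance : Δ.Normal).conj_mem h hh g⁻¹
      rwa [inv_inv] at this
    · rw [map_mul, map_mul, Module.End.mul_apply, Module.End.mul_apply, rho_inv_mul]
  have hTd : ∀ g, finrank k (T g) = finrank k W := by
    intro g
    refine LinearEquiv.finrank_eq (LinearEquiv.symm (Submodule.equivMapOfInjective (ρ g) ?_ W))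
    intro x y hxy
    have := congrArg (ρ g⁻¹) hxy
    rwa [rho_mul_inv, rho_mul_inv] at this
  -- a translate different from `W`
  obtain ⟨g, hg⟩ : ∃ g, T g ≠ W := by
    by_contra hall
    push Not at hall
    rcases hirr W (fun g u hu => by
      have : ρ g u ∈ T g := ⟨u, hu, rfl⟩
      rwa [hall g] at this) with h | h
    · exact hWb h
    · exact hWt h
  have hinf : W ⊓ T g = ⊥ := by
    by_contra hne'
    have h1 : W ⊓ T g ≠ ⊤ := fun h => hWt (top_le_iff.1 (h ▸ inf_le_left))
    have h2 := hmin _ hne' h1 (fun h hh u hu => ⟨hWs h hh u hu.1, hTs g h hh u hu.2⟩)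
    have h3 : W ⊓ T g = W := Submodule.eq_of_le_of_finrank_le inf_le_left h2
    have h4 : W ⊓ T g = T g := Submodule.eq_of_le_of_finrank_le inf_le_right (by rw [hTd]; exact h2)
    exact hg (h4.symm.trans h3)
  have hdim : finrank k W ≤ finrank k V / 2 := by
    have h1 := Submodule.finrank_sup_add_finrank_inf_eq W (T g)
    rw [hinf, finrank_bot, add_zero, hTd] at h1
    have h2 := Submodule.finrank_le (W ⊔ T g)
    omega
  -- `μ - 1` is small on all translates
  let K : Submodule k V := ⨆ h, T h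
  have hK : K = ⊤ := by
    rcases hirr K (fun g' u hu => by
      have h1 : K.map (ρ g') ≤ K := by
        rw [Submodule.map_iSup]
        refine iSup_le fun h => ?_
        have h2 : (T h).map (ρ g') = T (g' * h) := by
          change (W.map (ρ h)).map (ρ g') = W.map (ρ (g' * h))
          rw [← Submodule.map_comp, map_mul]
          rfl
        rw [h2]
        exact le_iSup T _
      exact h1 ⟨u, hu, rfl⟩) with h | h
    · exfalso
      apply hWb
      rw [← le_bot_iff, ← h]
      have : T 1 ≤ K := le_iSup T 1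
      refine le_trans ?_ this
      intro w hw
      exact ⟨w, hw, by rw [map_one]; rfl⟩
    · exact h
  apply hne
  have hle : K ≤ LinearMap.ker ((ρ μ - 1) ^ (finrank k V / 2)) := by
    refine iSup_le fun h => ?_
    intro u hu
    rw [LinearMap.mem_ker]
    have h1 : ∀ u ∈ T h, (ρ μ - 1) u ∈ T h := by
      intro u hu
      rw [LinearMap.sub_apply, Module.End.one_apply]
      exact Submodule.sub_mem _ (hTs h μ hμ u hu) hu
    have h2 := pow_finrank_restrict hnil h1 hu
    rw [hTd] at h2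
    obtain ⟨c, hc⟩ := Nat.exists_eq_add_of_le hdim
    rw [hc, add_comm, pow_add, Module.End.mul_apply, h2, map_zero]
  rw [hK, top_le_iff, LinearMap.ker_eq_top] at hle
  exact hle

/-- Irreducibility under all subgroups of finite index, and the commutant. -/
theorem potentially (hirr : ∀ U : Submodule k V, (∀ g, ∀ u ∈ U, ρ g u ∈ U) → U = ⊥ ∨ U = ⊤)
    {τ : Γ} {e : ℕ} (hnil : IsNilpotent (ρ τ ^ e - 1))
    (hne : (ρ τ ^ e - 1) ^ (finrank k V / 2) ≠ 0) (Δ : Subgroup Γ) (hΔ : Δ.FiniteIndex) :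
    (∀ U : Submodule k V, (∀ g ∈ Δ, ∀ u ∈ U, ρ g u ∈ U) → U = ⊥ ∨ U = ⊤) ∧
      ∀ A : End k V, (∀ g ∈ Δ, ∀ x, A (ρ g x) = ρ g (A x)) → ∃ c : k, ∀ v, A v = c • v := by
  have hcore : Δ.normalCore.FiniteIndex := inferInstance
  obtain ⟨M, hM0, -, hM⟩ := Subgroup.exists_pow_mem_of_index_ne_zero hcore.index_ne_zero (τ ^ e)
  obtain ⟨h1, h2⟩ := pow_sub_one_pow_ne_zero hnil hne hM0
  have h3 : (ρ τ ^ e) ^ M = ρ ((τ ^ e) ^ M) := by rw [map_pow, map_pow]
  rw [h3] at h1 h2
  have hirrΔ : ∀ U : Submodule k V, (∀ g ∈ Δ, ∀ u ∈ U, ρ g u ∈ U) → U = ⊥ ∨ U = ⊤ := by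
    intro U hU
    exact irreducible_normal ρ hirr Δ.normalCore hM h2 h1 U
      fun g hg u hu => hU g (Subgroup.normalCore_le Δ hg) u hu
  refine ⟨hirrΔ, fun A hA => ?_⟩
  by_contra hsc
  push Not at hsc
  have hcomm : Commute A (ρ ((τ ^ e) ^ M) - 1) := by
    refine Commute.sub_right ?_ (Commute.one_right _)
    exact LinearMap.ext fun x => hA _ (Subgroup.normalCore_le Δ hM) x
  apply h1
  refine pow_half_eq_zero h2 hcomm ?_
  intro c v hv
  by_contra hv0
  have hs := hirrΔ (LinearMap.ker (A - c • (1 : End k V))) (fun g hg u hu => by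
    rw [LinearMap.mem_ker, LinearMap.sub_apply, LinearMap.smul_apply, Module.End.one_apply,
      sub_eq_zero] at hu ⊢
    rw [hA g hg, hu, map_smul])
  have hvk : v ∈ LinearMap.ker (A - c • (1 : End k V)) := by
    rw [LinearMap.mem_ker, LinearMap.sub_apply, LinearMap.smul_apply, Module.End.one_apply,
      sub_eq_zero]
    exact hv
  rcases hs with h | h
  · rw [h, Submodule.mem_bot] at hvk
    exact hv0 hvk
  · obtain ⟨w, hw⟩ := hsc c
    apply hw
    have h5 : w ∈ LinearMap.ker (A - c • (1 : End k V)) := by rw [h]; trivial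
    rw [LinearMap.mem_ker, LinearMap.sub_apply, LinearMap.smul_apply, Module.End.one_apply,
      sub_eq_zero] at h5
    exact h5

end Pool.Agent.Y114.AP
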