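import Mathlib
import Pool.Agent.Y114.TF.Local3

/-!
# Direct sums of potentially absolutely irreducible representations with disjoint spectra
-/

set_option autoImplicit false
set_option linter.unusedSectionVars false

namespace Pool.Agent.Y114.AP

open Module Polynomial Pool.Agent.H204R3.GP Pool.Agent.Y114.TF

variable {k : Type} [Field k] [CharZero k] {ι : Type} [Fintype ι] [DecidableEq ι]
  {V : ι → Type} [∀ i, AddCommGroup (V i)] [∀ i, Module k (V i)] [∀ i, FiniteDimensional k (V i)]

theorem exists_proj' {T : ∀ i, End k (V i)}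
    (hcop : ∀ i j, i ≠ j → IsCoprime (T i).charpoly (T j).charpoly) (i : ι) :
    ∃ e : k[X], ∀ x : ∀ i, V i, aeval (piEnd T) e x = Pi.single i (x i) := by
  have h1 : IsCoprime (T i).charpoly (∏ j ∈ Finset.univ.erase i, (T j).charpoly) := by
    refine IsCoprime.prod_right fun j hj => ?_
    exact hcop i j (Finset.ne_of_mem_erase hj).symm
  obtain ⟨a, b, hab⟩ := h1
  refine ⟨b * ∏ j ∈ Finset.univ.erase i, (T j).charpoly, fun x => ?_⟩
  funext j
  rw [aeval_piEnd]
  by_cases hj : j = i
  · subst hj
    rw [Pi.single_eq_same]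
    have h2 : b * ∏ j ∈ Finset.univ.erase j, (T j).charpoly = 1 - a * (T j).charpoly := by
      rw [← hab]; ring
    rw [h2, map_sub, map_one, map_mul, LinearMap.aeval_self_charpoly, mul_zero, sub_zero]
    rfl
  · rw [Pi.single_eq_of_ne hj]
    have h3 : (T j).charpoly ∣ b * ∏ j ∈ Finset.univ.erase i, (T j).charpoly :=
      (Finset.dvd_prod_of_mem _ (Finset.mem_erase.2 ⟨hj, Finset.mem_univ _⟩)).mul_left _
    obtain ⟨q, hq⟩ := h3
    rw [hq, map_mul, LinearMap.aeval_self_charpoly, zero_mul]
    rfl

variable {Γ : Type} [Group Γ] (ρ : ∀ i, Representation k Γ (V i))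

theorem sum_main {Ω : Type} [Field Ω] [Algebra k Ω] (γ : Γ)
    (hcop : ∀ i j, i ≠ j → IsCoprime (ρ i γ).charpoly (ρ j γ).charpoly) (s : Finset Ω)
    (hs : ∀ a ∈ s, aeval a (sumRep ρ γ).charpoly = 0)
    (hcard : s.card = (sumRep ρ γ).charpoly.natDegree)
    (hN : ∀ N : ℕ, 0 < N → ∀ a ∈ s, ∀ b ∈ s, a ^ N = b ^ N → a = b)
    (hpot : ∀ i (Δ : Subgroup Γ), Δ.FiniteIndex →
      (∀ U : Submodule k (V i), (∀ g ∈ Δ, ∀ u ∈ U, ρ i g u ∈ U) → U = ⊥ ∨ U = ⊤) ∧
      ∀ A : End k (V i), (∀ g ∈ Δ, ∀ x, A (ρ i g x) = ρ i g (A x)) → ∃ c : k, ∀ v, A v = c • v) :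
    FiniteIndexSemisimple (sumRep ρ) ∧ ∀ Δ : Subgroup Γ, Δ.FiniteIndex → ∀ A : End k (∀ i, V i),
      (∀ g ∈ Δ, ∀ x, A (sumRep ρ g x) = sumRep ρ g (A x)) →
        ∃ c : ι → k, ∀ x i, A x i = c i • x i := by
  have hsingle : ∀ (g : Γ) (i : ι) (w : V i),
      sumRep ρ g (Pi.single i w) = Pi.single i (ρ i g w) := by
    intro g i w
    funext j
    change ρ j g (Pi.single (M := V) i w j) = _
    by_cases hj : j = i
    · subst hj
      rw [Pi.single_eq_same, Pi.single_eq_same]
    · rw [Pi.single_eq_of_ne hj, Pi.single_eq_of_ne hj, map_zero]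
  constructor
  · intro Δ hΔ U hU
    obtain ⟨N, hN0, -, hγN⟩ := Subgroup.exists_pow_mem_of_index_ne_zero hΔ.index_ne_zero γ
    obtain ⟨c, hc⟩ := exists_poly_pow (sumRep ρ γ) N s hs hcard (hN N hN0)
    have h1 : ∀ u ∈ U, sumRep ρ γ u ∈ U := by
      intro u hu
      rw [hc]
      refine stable_aeval (fun u hu => ?_) c u hu
      rw [← map_pow]
      exact hU _ hγN u hu
    have hproj : ∀ i, ∀ u ∈ U, Pi.single i (u i) ∈ U := by
      intro i u hu
      obtain ⟨e, he⟩ := exists_proj' hcop i
      rw [← he]
      exact stable_aeval h1 e u hu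
    have hS : ∀ x : ∀ i, V i, x ∈ U ↔ ∀ i, (¬ ∃ u ∈ U, u i ≠ 0) → x i = 0 := by
      intro x
      refine ⟨fun hx i hi => ?_, fun hx => ?_⟩
      · by_contra h
        exact hi ⟨x, hx, h⟩
      · have hx' : x = ∑ i, Pi.single i (x i) := by
          funext j
          rw [Finset.sum_apply, Finset.sum_eq_single j]
          · rw [Pi.single_eq_same]
          · intro i _ hij
            rw [Pi.single_eq_of_ne hij.symm]
          · intro h
            exact absurd (Finset.mem_univ _) h
        rw [hx']
        refine sum_mem fun i _ => ?_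
        by_cases hi : ∃ u ∈ U, u i ≠ 0
        · obtain ⟨u, hu, hui⟩ := hi
          let W : Submodule k (V i) := U.comap (LinearMap.single k V i)
          have hW : ∀ g ∈ Δ, ∀ w ∈ W, ρ i g w ∈ W := by
            intro g hg w hw
            change Pi.single i (ρ i g w) ∈ U
            rw [← hsingle]
            exact hU g hg _ hw
          rcases (hpot i Δ hΔ).1 W hW with h2 | h2
          · exfalso
            apply hui
            have h3 : u i ∈ W := hproj i u hu
            rw [h2, Submodule.mem_bot] at h3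
            exact h3
          · have h3 : x i ∈ W := by rw [h2]; trivial
            exact h3
        · have h3 := hx i hi
          rw [h3, Pi.single_zero]
          exact U.zero_mem
    let S : Set ι := {i | ∃ u ∈ U, u i ≠ 0}
    let U' : Submodule k (∀ i, V i) :=
      { carrier := {x | ∀ i, i ∈ S → x i = 0}
        add_mem' := fun {a b} ha hb i hi => by rw [Pi.add_apply, ha i hi, hb i hi, add_zero]
        zero_mem' := fun i _ => rfl
        smul_mem' := fun c x hx i hi => by rw [Pi.smul_apply, hx i hi, smul_zero] }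
    refine ⟨U', fun g _ u hu i hi => ?_, ?_⟩
    · change ρ i g (u i) = 0
      rw [hu i hi, map_zero]
    · constructor
      · rw [Submodule.disjoint_def]
        intro x hx hx'
        funext i
        by_cases hi : i ∈ S
        · exact hx' i hi
        · exact (hS x).1 hx i hi
      · rw [codisjoint_iff, eq_top_iff]
        intro x _
        classical
        have h2 : x = (fun i => if i ∈ S then x i else 0) + (fun i => if i ∈ S then 0 else x i) := by
          funext i
          rw [Pi.add_apply]
          split_ifs <;> simp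
        rw [h2]
        refine Submodule.add_mem_sup ((hS _).2 fun i hi => ?_) ?_
        · exact if_neg hi
        · intro i hi
          change (if i ∈ S then (0 : V i) else x i) = 0
          rw [if_pos hi]
  · intro Δ hΔ A hA
    obtain ⟨N, hN0, -, hγN⟩ := Subgroup.exists_pow_mem_of_index_ne_zero hΔ.index_ne_zero γ
    obtain ⟨c, hc⟩ := exists_poly_pow (sumRep ρ γ) N s hs hcard (hN N hN0)
    have hcomm : Commute A (sumRep ρ γ) := by
      have h0 : Commute A (sumRep ρ γ ^ N) := by
        rw [← map_pow]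
        exact LinearMap.ext fun x => hA _ hγN x
      rw [hc, aeval_eq_sum_range]
      exact Commute.sum_right _ _ _ fun n _ => (h0.pow_right n).smul_right _
    have hdiag : ∀ i x, A x i = A (Pi.single i (x i)) i := by
      intro i x
      obtain ⟨e, he⟩ := exists_proj' hcop i
      have h1 : Commute A (aeval (sumRep ρ γ) e) := by
        have h2 : ∀ n : ℕ, Commute A (sumRep ρ γ ^ n) := fun n => hcomm.pow_right n
        rw [aeval_eq_sum_range]
        exact Commute.sum_right _ _ _ fun n _ => (h2 n).smul_right _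
      have h3 := LinearMap.congr_fun h1 x
      have h4 : ∀ y, aeval (sumRep ρ γ) e y = Pi.single i (y i) := he
      change A (aeval (sumRep ρ γ) e x) = aeval (sumRep ρ γ) e (A x) at h3
      rw [h4, h4] at h3
      rw [h3, Pi.single_eq_same]
    have hsc : ∀ i, ∃ c : k, ∀ v, A (Pi.single i v) i = c • v := by
      intro i
      refine (hpot i Δ hΔ).2 (LinearMap.proj i ∘ₗ A ∘ₗ LinearMap.single k V i) fun g hg x => ?_
      change A (Pi.single i (ρ i g x)) i = ρ i g (A (Pi.single i x) i)
      rw [← hsingle, hA g hg]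
      rfl
    choose c' hc' using hsc
    exact ⟨c', fun x i => by rw [hdiag, hc']⟩

end Pool.Agent.Y114.AP
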