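import Mathlib
import Pool.Agent.Y114.TF.Defs

/-!
# Places of bad reduction: tame inertia with cyclotomic characteristic polynomial, monodromy
-/

set_option autoImplicit false

namespace Pool.Agent.Y114.AP

open Polynomial Pool.Agent.Y114.TF

variable {ι : Type} {n : ι → ℕ} {Γ : Type} [Group Γ] (R : Realizations n Γ)

/-- At a place of residue characteristic `p` with residue field of `q` elements the inertia group
acts tamely (on the `i`-th representations): `t` is a generator of tame inertia and `φ` a Frobenius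
element, so that `φ t φ⁻¹` and `t ^ q` act in the same way; for all primes `ℓ ≠ p` the characteristic
polynomial of `t` is a product of cyclotomic polynomials `Φ_e` (the same for all `ℓ`) such that the
order of `q` modulo `e` is divisible by `o`. -/
def TameAt (i : ι) (p o : ℕ) : Prop :=
  ∃ (t φ : Γ) (q : ℕ) (E : Multiset ℕ),
    (∀ e ∈ E, 0 < e ∧ q.Coprime e ∧ o ∣ orderOf (q : ZMod e)) ∧
      ∀ (ℓ : ℕ) [Fact ℓ.Prime], ℓ ≠ p → R.ρ ℓ i (φ * t * φ⁻¹) = R.ρ ℓ i (t ^ q) ∧
        (R.ρ ℓ i t).charpoly = (E.map fun e => cyclotomic e ℚ_[ℓ]).prod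

/-- At a place of residue characteristic `p` the monodromy is large: for some element `τ` (of the
inertia group) and some `e`, for all primes `ℓ ≠ p`, the element `τ ^ e` acts unipotently on the
`i`-th representation of dimension `n i`, and the `(n i / 2)`-th power of `τ ^ e - 1` is not zero
(so the monodromy operator `N` satisfies `N ^ (n i / 2) ≠ 0`). -/
def LargeMonodromyAt (i : ι) (p : ℕ) : Prop :=
  ∃ (τ : Γ) (e : ℕ), ∀ (ℓ : ℕ) [Fact ℓ.Prime], ℓ ≠ p →
    IsNilpotent (R.ρ ℓ i (τ ^ e) - 1) ∧ (R.ρ ℓ i (τ ^ e) - 1) ^ (n i / 2) ≠ 0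

end Pool.Agent.Y114.AP
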