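import Mathlib
import Pool.Agent.Y114.AP.Sum
import Pool.Agent.Y114.AP.Charpoly

/-!
# The Tate classes at one prime, for potentially absolutely irreducible summands
-/

set_option autoImplicit false
set_option linter.unusedSectionVars false

namespace Pool.Agent.Y114.AP

open NumberField Module Polynomial Pool.Agent.H204R3.GP Pool.Agent.H204R3.SP IntermediateField
open Pool.Agent.Y114.TF
open scoped TensorProduct

variable {k : Type} [Field k] [CharZero k] {ι : Type} [Fintype ι] [DecidableEq ι]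
  {V : ι → Type} [∀ i, AddCommGroup (V i)] [∀ i, Module k (V i)] [∀ i, FiniteDimensional k (V i)]
  {Γ : Type} [Group Γ] (ρ : ∀ i, Representation k Γ (V i)) (χ : Γ →* k)
  (ω : ∀ i, V i →ₗ[k] V i →ₗ[k] k)

/-- The local theorem: potentially absolutely irreducible symplectic representations, one Frobenius
element whose Weil numbers have only trivial relations. -/
theorem local_main {p : ℕ} [Fact p.Prime] {a : ℕ} (ha : 0 < a)
    {F : ι → Type} [∀ i, Field (F i)] [∀ i, NumberField (F i)] [∀ i, IsCMField (F i)]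
    (π : ∀ i, F i) (hgen : ∀ i, ℚ⟮π i⟯ = ⊤)
    (hw : ∀ i, π i * IsCMField.complexConj (F i) (π i) = (p : F i) ^ a)
    {L : Type} [Field L] [NumberField L] [IsGalois ℚ L] (j : L →+* ℂ)
    (hj : ∀ i, ∀ ψ : F i →+* ℂ, ∃ φ : F i →+* L, j.comp φ = ψ)
    (hrel : OnlyTrivialRelations π L)
    (halt : ∀ i v, ω i v v = 0) (hnd : ∀ i u, (∀ v, ω i v u = 0) → u = 0)
    (hωρ : ∀ i s u v, ω i (ρ i s u) (ρ i s v) = χ s * ω i u v)
    (γ : Γ) (hχ : χ γ = (p : k) ^ a)
    (hγ : ∀ i, (ρ i γ).charpoly = (minpoly ℚ (π i)).map (algebraMap ℚ k))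
    (hpot : ∀ i (Δ : Subgroup Γ), Δ.FiniteIndex →
      (∀ U : Submodule k (V i), (∀ g ∈ Δ, ∀ u ∈ U, ρ i g u ∈ U) → U = ⊥ ∨ U = ⊤) ∧
      ∀ A : End k (V i), (∀ g ∈ Δ, ∀ x, A (ρ i g x) = ρ i g (A x)) → ∃ c : k, ∀ v, A v = c • v) :
    FiniteIndexSemisimple (sumRep ρ) ∧ HomsGeneratedByPolarizations ρ χ ω := by
  classical
  have hp0 : ((p : ℕ) : L) ≠ 0 := Nat.cast_ne_zero.2 (Fact.out : p.Prime).ne_zero
  have hπ0 : ∀ i, π i ≠ 0 := by
    intro i h0
    have h1 := hw i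
    rw [h0, zero_mul] at h1
    exact pow_ne_zero a (Nat.cast_ne_zero.2 (Fact.out : p.Prime).ne_zero) h1.symm
  have hcardE : ∀ i, Fintype.card (F i →+* L) = finrank ℚ (F i) := fun i =>
    H204R3.CM.card_emb j (hj i)
  have hpow : ∀ N : ℕ, 0 < N → ∀ x y : Σ i, (F i →+* L), val π x ^ N = val π y ^ N → x = y :=
    fun N hN x y h => pow_inj hrel hπ0 hN x y h
  obtain ⟨Ω, hΩ, ⟨jΩ⟩⟩ := exists_finite_ext k L
  have hcop : ∀ i i', i ≠ i' → IsCoprime (ρ i γ).charpoly (ρ i' γ).charpoly := by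
    intro i i' hii
    rw [hγ, hγ]
    refine IsCoprime.map ?_ (Polynomial.mapRingHom (algebraMap ℚ k))
    have hi := minpoly.irreducible (Algebra.IsIntegral.isIntegral (R := ℚ) (π i))
    have hi' := minpoly.irreducible (Algebra.IsIntegral.isIntegral (R := ℚ) (π i'))
    rw [hi.coprime_iff_not_dvd]
    intro h
    refine minpoly_ne π hgen hcardE hpow hii ?_
    have h1 : Associated (minpoly ℚ (π i)) (minpoly ℚ (π i')) :=
      ((hi'.dvd_iff.1 h).resolve_left hi.not_isUnit).symm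
    exact eq_of_monic_of_associated (minpoly.monic (Algebra.IsIntegral.isIntegral _))
      (minpoly.monic (Algebra.IsIntegral.isIntegral _)) h1
  have hchar : (sumRep ρ γ).charpoly = ∏ i, (minpoly ℚ (π i)).map (algebraMap ℚ k) := by
    rw [sumRep_apply, charpoly_piEnd']
    exact Finset.prod_congr rfl fun i _ => hγ i
  obtain ⟨s, hs, hcard, hN⟩ := exists_roots (Ω := Ω) π hgen hcardE hpow jΩ _ hchar
  obtain ⟨hss, hcm⟩ := sum_main ρ γ hcop s hs hcard hN hpot
  refine ⟨hss, ?_⟩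
  have hneat : Neat p a π L := neat_of_only hw hrel
  have hSS : ∀ Δ : Subgroup Γ, Δ.FiniteIndex → SemiUnder (sumRep ρ '' (Δ : Set Γ)) := by
    intro Δ hΔ U hU
    obtain ⟨U', h1, h2⟩ := hss Δ hΔ U (fun s hs u hu => hU _ ⟨s, hs, rfl⟩ u hu)
    refine ⟨U', ?_, h2⟩
    rintro _ ⟨s, hs, rfl⟩ u hu
    exact h1 s hs u hu
  intro s₀ t₀ c₀ d₀ hst f hf
  have hmain := homs_of (sumRep ρ) χ (sumForm ω) (sumForm_alt ω halt) (sumForm_nondeg ω hnd)
    (sumForm_sim ρ χ ω hωρ) (Set.range (partForm ω)) (fun m φ hφ => by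
      have h1 := tate_of_neat ha hgen hw j hj hneat (sumRep ρ) χ (sumForm ω) (sumForm_alt ω halt)
        (sumForm_nondeg ω hnd) (sumForm_sim ρ χ ω hωρ) hSS γ hχ hchar φ hφ
      refine Submodule.span_induction ?_ (Submodule.zero_mem _)
        (fun _ _ _ _ h1 h2 => Submodule.add_mem _ h1 h2) (fun c _ _ h => Submodule.smul_mem _ c h) h1
      rintro _ ⟨σ, B, hB, rfl⟩
      have h2 := mmG_mem_span σ (Set.range (partForm ω)) B fun l =>
        tate2_mem_span ρ χ ω halt hnd hωρ (fun Δ hΔ A hA => hcm Δ hΔ A hA) (B l) (hB l)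
      refine Submodule.span_mono ?_ h2
      rintro _ ⟨B', hB', rfl⟩
      exact ⟨σ, B', hB', rfl⟩) s₀ t₀ c₀ d₀ hst f hf
  refine Submodule.span_mono ?_ hmain
  rintro f' ⟨m, e, B, hB, hf'⟩
  choose u hu using hB
  refine ⟨m, e, u, fun x y => ?_⟩
  rw [hf']
  refine Finset.prod_congr rfl fun l _ => ?_
  rw [← hu l]

end Pool.Agent.Y114.AP
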