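import Mathlib

/-!
# Sums of invariant functions over the orbits of a permutation
-/

set_option autoImplicit false
set_option linter.unusedSectionVars false

namespace Pool.Agent.Y114.AP

open Module Polynomial

/-- If all periods of the permutation `σ` are divisible by `o`, the sum of an invariant function is
divisible by `o`. -/
theorem dvd_sum_of_invariant {α : Type*} [Fintype α] (σ : Equiv.Perm α) (d : α → ℕ)
    (hd : ∀ x, d (σ x) = d x) (o : ℕ) (ho : ∀ x (j : ℕ), 0 < j → (σ ^ j) x = x → o ∣ j) :
    o ∣ ∑ x, d x := by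
  classical
  let G := Subgroup.zpowers σ
  have hdG : ∀ (g : G) (x : α), d (g • x) = d x := by
    rintro ⟨g, hg⟩ x
    obtain ⟨m, rfl⟩ := Subgroup.mem_zpowers_iff.1 hg
    change d ((σ ^ m) x) = d x
    have h1 : ∀ (n : ℕ) x, d ((σ ^ n) x) = d x := by
      intro n
      induction n with
      | zero => intro x; rfl
      | succ n ih =>
        intro x
        rw [pow_succ', Equiv.Perm.mul_apply, hd, ih]
    cases m with
    | ofNat n => exact h1 n x
    | negSucc n =>
      rw [zpow_negSucc]
      have := h1 (n + 1) ((σ ^ (n + 1))⁻¹ x)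
      rw [← Equiv.Perm.mul_apply, mul_inv_cancel, Equiv.Perm.one_apply] at this
      exact this.symm
  rw [← (MulAction.selfEquivSigmaOrbits G α).symm.sum_comp, Fintype.sum_sigma]
  refine Finset.dvd_sum fun w _ => ?_
  have h2 : ∀ y : MulAction.orbit G w.out,
      d ((MulAction.selfEquivSigmaOrbits G α).symm ⟨w, y⟩) = d w.out := by
    rintro ⟨y, ⟨g, rfl⟩⟩
    exact hdG g _
  rw [Finset.sum_congr rfl fun y _ => h2 y, Finset.sum_const, Finset.card_univ, smul_eq_mul]
  refine Dvd.dvd.mul_right ?_ _
  -- the cardinality of the orbit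
  set x := w.out with hx
  have h3 : (MulAction.orbit G x).Finite := Set.toFinite _
  have h4 : Function.minimalPeriod (σ • ·) x = Nat.card (MulAction.orbit G x) := by
    rw [MulAction.minimalPeriod_eq_card]
    exact (Nat.card_eq_fintype_card).symm
  have h5 : 0 < Nat.card (MulAction.orbit G x) := by
    have : Nonempty (MulAction.orbit G x) := ⟨⟨x, MulAction.mem_orbit_self x⟩⟩
    exact Nat.card_pos
  rw [← Nat.card_eq_fintype_card]
  refine ho x _ h5 ?_
  have h6 := Function.isPeriodicPt_minimalPeriod (σ • ·) x
  rw [h4] at h6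
  have h7 : ∀ (n : ℕ) y, ((fun z : α => σ • z)^[n]) y = (σ ^ n) y := by
    intro n
    induction n with
    | zero => intro y; rfl
    | succ n ih =>
      intro y
      rw [Function.iterate_succ_apply', ih, pow_succ', Equiv.Perm.mul_apply]
      rfl
  rw [← h7]
  exact h6

end Pool.Agent.Y114.AP
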