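import Mathlib
import Pool.Agent.Y114.AP.Orbit

/-!
# Tame inertia: dimensions of stable subspaces
-/

set_option autoImplicit false
set_option linter.unusedSectionVars false

namespace Pool.Agent.Y114.AP

open Module Polynomial

section

variable {K : Type*} [Field K] {U : Type*} [AddCommGroup U] [Module K U] [FiniteDimensional K U]

/-- The dimension of the kernel of a product of powers of distinct linear factors. -/
theorem finrank_ker_prod [DecidableEq K] (T : End K U) (N : ℕ) (S : Finset K) :
    finrank K (LinearMap.ker (aeval T (∏ x ∈ S, (X - C x) ^ N))) =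
      ∑ x ∈ S, finrank K (LinearMap.ker (aeval T ((X - C x) ^ N))) := by
  induction S using Finset.induction_on with
  | empty =>
    rw [Finset.prod_empty, Finset.sum_empty, map_one]
    have : LinearMap.ker (1 : End K U) = ⊥ := LinearMap.ker_eq_bot.2 fun _ _ h => h
    rw [this, finrank_bot]
  | insert x S hx ih =>
    rw [Finset.prod_insert hx, Finset.sum_insert hx, ← ih]
    have hcop : IsCoprime ((X - C x) ^ N : K[X]) (∏ x ∈ S, (X - C x) ^ N) := by
      refine IsCoprime.prod_right fun y hy => IsCoprime.pow ?_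
      refine isCoprime_X_sub_C_of_isUnit_sub ?_
      rw [isUnit_iff_ne_zero, sub_ne_zero]
      rintro rfl
      exact hx hy
    have h1 := Polynomial.sup_ker_aeval_eq_ker_aeval_mul_of_coprime T hcop
    have h2 := Polynomial.disjoint_ker_aeval_of_isCoprime T hcop
    have h3 := Submodule.finrank_sup_add_finrank_inf_eq
      (LinearMap.ker (aeval T ((X - C x) ^ N : K[X])))
      (LinearMap.ker (aeval T (∏ x ∈ S, (X - C x) ^ N)))
    rw [h2.eq_bot, finrank_bot, add_zero, h1] at h3
    exact h3

/-- Let `F T = T ^ q F` with `F` injective and let the eigenvalues of `T` lie in a finite set `R`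
on which `x ↦ x ^ q` is a permutation with all periods divisible by `o`.  Then `o` divides the
dimension. -/
theorem dvd_finrank_of_frobenius [DecidableEq K] (T F : End K U) (hF : Function.Injective F)
    (q : ℕ) (hFT : F * T = T ^ q * F) (R : Finset K)
    (hRq : ∀ x ∈ R, x ^ q ∈ R) (hinj : ∀ x ∈ R, ∀ y ∈ R, x ^ q = y ^ q → x = y) (N : ℕ)
    (hT : aeval T (∏ x ∈ R, (X - C x) ^ N) = 0) (o : ℕ)
    (ho : ∀ x ∈ R, ∀ j : ℕ, 0 < j → x ^ q ^ j = x → o ∣ j) : o ∣ finrank K U := by
  classical
  let σ : Equiv.Perm R := Equiv.ofBijective (fun x => ⟨x.1 ^ q, hRq x.1 x.2⟩) (by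
    rw [← Finite.injective_iff_bijective]
    intro x y hxy
    exact Subtype.ext (hinj x.1 x.2 y.1 y.2 (congrArg Subtype.val hxy)))
  have hσ : ∀ x : R, ((σ x : R) : K) = x.1 ^ q := fun x => rfl
  let d : R → ℕ := fun x => finrank K (LinearMap.ker (aeval T ((X - C x.1) ^ N : K[X])))
  have hsum : finrank K U = ∑ x : R, d x := by
    have h1 := finrank_ker_prod T N R
    rw [hT, LinearMap.ker_zero, finrank_top] at h1
    rw [h1, ← Finset.sum_coe_sort R]
  -- `F` maps the part for `x = y ^ q` to the part for `y`
  have hle : ∀ y : R, d (σ y) ≤ d y := by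
    intro y
    have hcomm : ∀ p : K[X], F * aeval T p = aeval (T ^ q) p * F := by
      intro p
      induction p using Polynomial.induction_on' with
      | add p p' h h' => rw [map_add, mul_add, h, h', map_add, add_mul]
      | monomial m a =>
        rw [aeval_monomial, aeval_monomial]
        have h3 : ∀ m : ℕ, F * T ^ m = (T ^ q) ^ m * F := by
          intro m
          induction m with
          | zero => rw [pow_zero, pow_zero, mul_one, one_mul]
          | succ m ih => rw [pow_succ, ← mul_assoc, ih, mul_assoc, hFT, ← mul_assoc, ← pow_succ]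
        rw [← mul_assoc, ← Algebra.commutes a F, mul_assoc, h3, ← mul_assoc]
    -- factorisation of `X ^ q - y ^ q`
    obtain ⟨h, hh⟩ : (X - C y.1) ∣ (X ^ q - C (y.1 ^ q) : K[X]) := by
      rw [dvd_iff_isRoot]
      simp
    have hker : LinearMap.ker (aeval (T ^ q) ((X - C (y.1 ^ q)) ^ N : K[X])) ≤
        LinearMap.ker (aeval T ((X - C y.1) ^ N : K[X])) := by
      intro u hu
      rw [LinearMap.mem_ker] at hu ⊢
      have h1 : aeval (T ^ q) ((X - C (y.1 ^ q)) ^ N : K[X]) =
          aeval T ((X - C y.1) ^ N * h ^ N : K[X]) := by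
        rw [← mul_pow, ← hh]
        simp only [map_pow, map_sub, aeval_X, aeval_C]
      rw [h1] at hu
      let Q : K[X] := ∏ x ∈ R.erase y.1, (X - C x) ^ N
      have hQ : (X - C y.1) ^ N * Q = ∏ x ∈ R, (X - C x) ^ N := by
        exact Finset.mul_prod_erase R (fun x => (X - C x) ^ N) y.2
      have hcop : IsCoprime (h ^ N) Q := by
        refine IsCoprime.prod_right fun x hx => IsCoprime.pow ?_
        rw [isCoprime_comm, (Polynomial.irreducible_X_sub_C x).coprime_iff_not_dvd,
          dvd_iff_isRoot]
        intro h2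
        rw [Finset.mem_erase] at hx
        have h3 := congrArg (Polynomial.eval x) hh
        rw [eval_mul, (show h.eval x = 0 from h2), mul_zero, eval_sub, eval_pow, eval_X, eval_C,
          sub_eq_zero] at h3
        exact hx.1 (hinj x hx.2 y.1 y.2 h3)
      obtain ⟨a, b, hab⟩ := hcop
      have h3 : aeval T (h ^ N) (aeval T ((X - C y.1) ^ N : K[X]) u) = 0 := by
        rw [← Module.End.mul_apply, ← map_mul, mul_comm]
        exact hu
      have h4 : aeval T Q (aeval T ((X - C y.1) ^ N : K[X]) u) = 0 := by
        rw [← Module.End.mul_apply, ← map_mul, mul_comm, hQ, hT]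
        rfl
      have h5 : ∀ w : U, w = aeval T a (aeval T (h ^ N) w) + aeval T b (aeval T Q w) := by
        intro w
        rw [← Module.End.mul_apply, ← Module.End.mul_apply, ← map_mul, ← map_mul,
          ← LinearMap.add_apply, ← map_add, hab, map_one, Module.End.one_apply]
      rw [h5 (aeval T ((X - C y.1) ^ N : K[X]) u), h3, h4, map_zero, map_zero, add_zero]
    have hmap : (LinearMap.ker (aeval T ((X - C ((σ y : R) : K)) ^ N : K[X]))).map F ≤
        LinearMap.ker (aeval T ((X - C y.1) ^ N : K[X])) := by
      rintro _ ⟨u, hu, rfl⟩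
      refine hker ?_
      rw [LinearMap.mem_ker, ← Module.End.mul_apply, ← hσ, ← hcomm, Module.End.mul_apply]
      rw [SetLike.mem_coe, LinearMap.mem_ker] at hu
      rw [hu, map_zero]
    have h4 := Submodule.finrank_mono hmap
    have h5 : finrank K ((LinearMap.ker (aeval T ((X - C ((σ y : R) : K)) ^ N : K[X]))).map F) =
        finrank K (LinearMap.ker (aeval T ((X - C ((σ y : R) : K)) ^ N : K[X]))) :=
      (LinearEquiv.finrank_eq (Submodule.equivMapOfInjective F hF _)).symm
    rw [h5] at h4
    exact h4
  have heq : ∀ y : R, d (σ y) = d y := by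
    have h5 : ∑ y, d (σ y) = ∑ y, d y := Equiv.sum_comp σ d
    intro y
    by_contra hne
    have h6 : ∑ y, d (σ y) < ∑ y, d y :=
      Finset.sum_lt_sum (fun y _ => hle y) ⟨y, Finset.mem_univ _, lt_of_le_of_ne (hle y) hne⟩
    omega
  rw [hsum]
  refine dvd_sum_of_invariant σ d heq o fun x j hj hx => ho x.1 x.2 j hj ?_
  have h7 : ∀ (j : ℕ) (x : R), (((σ ^ j) x : R) : K) = x.1 ^ q ^ j := by
    intro j
    induction j with
    | zero => intro x; simp
    | succ j ih =>
      intro x
      rw [pow_succ, Equiv.Perm.mul_apply, ih, hσ, ← pow_mul, pow_succ' q]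
  rw [← h7, hx]

end

end Pool.Agent.Y114.AP
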