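import Mathlib
import Pool.Agent.Y114.AP.Tame

/-!
# Tame inertia whose eigenvalues are roots of unity
-/

set_option autoImplicit false
set_option linter.unusedSectionVars false

namespace Pool.Agent.Y114.AP

open Module Polynomial
open scoped TensorProduct

theorem aeval_baseChange {k : Type*} [Field k] {U : Type*} [AddCommGroup U] [Module k U]
    {K : Type*} [Field K] [Algebra k K] (T : End k U) (p : k[X]) :
    aeval (T.baseChange K) (p.map (algebraMap k K)) = (aeval T p).baseChange K := by
  induction p using Polynomial.induction_on' with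
  | add p q hp hq => rw [Polynomial.map_add, map_add, hp, hq, map_add, LinearMap.baseChange_add]
  | monomial n a =>
    rw [Polynomial.map_monomial, aeval_monomial, aeval_monomial]
    have h1 : T.baseChange K ^ n = (T ^ n).baseChange K := by
      exact (Module.End.baseChangeHom k K U).toRingHom.map_pow T n |>.symm
    rw [h1]
    refine TensorProduct.AlgebraTensorModule.ext fun x u => ?_
    rw [Module.End.mul_apply, LinearMap.baseChange_tmul, LinearMap.baseChange_tmul,
      Module.End.mul_apply, Module.algebraMap_end_apply, Module.algebraMap_end_apply,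
      TensorProduct.tmul_smul, algebraMap_smul]

/-- The dimension of a subspace stable under a tame inertia generator `T`, whose characteristic
polynomial is a product of cyclotomic polynomials, and a Frobenius element `F`. -/
theorem tame_dvd {k : Type*} [Field k] [CharZero k] {V : Type*} [AddCommGroup V] [Module k V]
    [FiniteDimensional k V] (T F : End k V) (hF : Function.Injective F) (q : ℕ)
    (hFT : F * T = T ^ q * F) (o : ℕ) (E : Multiset ℕ)
    (hE : ∀ e ∈ E, 0 < e ∧ q.Coprime e ∧ o ∣ orderOf (q : ZMod e))
    (hchar : T.charpoly = (E.map fun e => cyclotomic e k).prod)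
    (U : Submodule k V) (hTU : ∀ u ∈ U, T u ∈ U) (hFU : ∀ u ∈ U, F u ∈ U) :
    o ∣ finrank k U := by
  classical
  let K := AlgebraicClosure k
  let T₁ : End k U := T.restrict hTU
  let F₁ : End k U := F.restrict hFU
  let T₂ : End K (K ⊗[k] U) := T₁.baseChange K
  let F₂ : End K (K ⊗[k] U) := F₁.baseChange K
  have hfin : finrank K (K ⊗[k] U) = finrank k U := Module.finrank_baseChange
  have hF₁ : Function.Injective F₁ := by
    intro x y hxy
    exact Subtype.ext (hF (congrArg Subtype.val hxy))
  have hF₂ : Function.Injective F₂ := by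
    exact Module.Flat.lTensor_preserves_injective_linearMap (M := K) F₁ hF₁
  have hFT₁ : F₁ * T₁ = T₁ ^ q * F₁ := by
    ext u
    have h1 := LinearMap.congr_fun hFT u.1
    rw [Module.End.pow_restrict]
    exact h1
  have hFT₂ : F₂ * T₂ = T₂ ^ q * F₂ := by
    have h1 : ∀ A B : End k U, A.baseChange K * B.baseChange K = (A * B).baseChange K :=
      fun A B => ((Module.End.baseChangeHom k K U).toRingHom.map_mul A B).symm
    have h2 : T₁.baseChange K ^ q = (T₁ ^ q).baseChange K :=
      ((Module.End.baseChangeHom k K U).toRingHom.map_pow T₁ q).symm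
    change F₁.baseChange K * T₁.baseChange K = T₁.baseChange K ^ q * F₁.baseChange K
    rw [h2, h1, h1, hFT₁]
  -- the characteristic polynomial over `K`
  let P : K[X] := (T.charpoly).map (algebraMap k K)
  have hPeq : P = (E.map fun e => cyclotomic e K).prod := by
    change (T.charpoly).map (algebraMap k K) = _
    rw [hchar, Polynomial.map_multiset_prod, Multiset.map_map]
    congr 1
    refine Multiset.map_congr rfl fun e _ => ?_
    exact map_cyclotomic e (algebraMap k K)
  have hP0 : P ≠ 0 := ((LinearMap.charpoly_monic T).map _).ne_zero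
  have hPmonic : P.Monic := (LinearMap.charpoly_monic T).map _
  let R : Finset K := P.roots.toFinset
  have hRmem : ∀ x, x ∈ R ↔ ∃ e ∈ E, IsPrimitiveRoot x e := by
    intro x
    rw [Multiset.mem_toFinset, mem_roots hP0, IsRoot, hPeq, eval_multiset_prod, Multiset.map_map,
      Multiset.prod_eq_zero_iff, Multiset.mem_map]
    constructor
    · rintro ⟨e, he, h⟩
      have hne : NeZero (e : K) := ⟨Nat.cast_ne_zero.2 (hE e he).1.ne'⟩
      exact ⟨e, he, (isRoot_cyclotomic_iff).1 h⟩
    · rintro ⟨e, he, h⟩
      have hne : NeZero (e : K) := ⟨Nat.cast_ne_zero.2 (hE e he).1.ne'⟩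
      exact ⟨e, he, (isRoot_cyclotomic_iff).2 h⟩
  let N : ℕ := Multiset.card P.roots
  have hdvd : P ∣ ∏ x ∈ R, (X - C x) ^ N := by
    have h1 : P = (P.roots.map fun x => X - C x).prod := by
      exact (IsAlgClosed.splits P).eq_prod_roots_of_monic hPmonic
    rw [h1, Finset.prod_multiset_map_count]
    refine Finset.prod_dvd_prod_of_dvd _ _ fun x _ => pow_dvd_pow _ ?_
    exact Multiset.count_le_card _ _
  have hT₂ : aeval T₂ (∏ x ∈ R, (X - C x) ^ N) = 0 := by
    obtain ⟨c, hc⟩ := hdvd
    have h1 : aeval T₂ P = 0 := by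
      change aeval (T₁.baseChange K) ((T.charpoly).map (algebraMap k K)) = 0
      rw [aeval_baseChange]
      have h2 : aeval T₁ T.charpoly = 0 := by
        ext u
        have h3 : ∀ p : k[X], ((aeval T₁ p u : U) : V) = aeval T p u.1 := by
          intro p
          rw [aeval_eq_sum_range, aeval_eq_sum_range, LinearMap.sum_apply, LinearMap.sum_apply,
            Submodule.coe_sum]
          refine Finset.sum_congr rfl fun n _ => ?_
          rw [LinearMap.smul_apply, LinearMap.smul_apply, Submodule.coe_smul,
            Module.End.pow_restrict]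
          rfl
        rw [h3, LinearMap.aeval_self_charpoly]
        rfl
      rw [h2, LinearMap.baseChange_zero]
    rw [hc, map_mul, h1, zero_mul]
  have hgo := dvd_finrank_of_frobenius T₂ F₂ hF₂ q hFT₂ R (fun x hx => by
      rw [hRmem] at hx ⊢
      obtain ⟨e, he, h⟩ := hx
      exact ⟨e, he, h.pow_of_coprime q (hE e he).2.1⟩)
    (fun x hx y hy hxy => by
      rw [hRmem] at hx hy
      obtain ⟨e, he, h⟩ := hx
      obtain ⟨e', he', h'⟩ := hy
      have h1 := h.pow_of_coprime q (hE e he).2.1
      have h2 := h'.pow_of_coprime q (hE e' he').2.1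
      rw [hxy] at h1
      have h3 : e = e' := h1.unique h2
      subst h3
      have hy0 : y ≠ 0 := h'.ne_zero (hE e he).1.ne'
      have h4 : (x / y) ^ q = 1 := by
        rw [div_pow, hxy, div_self (pow_ne_zero _ hy0)]
      have h5 : (x / y) ^ e = 1 := by
        rw [div_pow, h.pow_eq_one, h'.pow_eq_one, div_one]
      have h6 : (x / y) ^ Nat.gcd q e = 1 := pow_gcd_eq_one.2 ⟨h4, h5⟩
      rw [(hE e he).2.1, pow_one] at h6
      exact (div_eq_one_iff_eq hy0).1 h6) N hT₂ o (fun x hx j hj hxj => by
      rw [hRmem] at hx
      obtain ⟨e, he, h⟩ := hx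
      refine (hE e he).2.2.trans ?_
      rw [orderOf_dvd_iff_pow_eq_one]
      have h1 : x ^ q ^ j = x ^ 1 := by rw [hxj, pow_one]
      have hx0 : x ≠ 0 := h.ne_zero (hE e he).1.ne'
      have hu : (Units.mk0 x hx0) ^ q ^ j = (Units.mk0 x hx0) ^ 1 := by
        ext
        rw [Units.val_pow_eq_pow_val, Units.val_pow_eq_pow_val, Units.val_mk0, h1]
      rw [pow_eq_pow_iff_modEq] at hu
      have h1 : q ^ j ≡ 1 [MOD e] := by
        have h3 : orderOf (Units.mk0 x hx0) = e := by
          rw [← orderOf_units, Units.val_mk0]
          exact h.eq_orderOf.symm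
        rwa [h3] at hu
      have h2 := (ZMod.natCast_eq_natCast_iff _ _ _).2 h1
      push_cast at h2
      exact h2)
  rwa [hfin] at hgo

end Pool.Agent.Y114.AP
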