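import Mathlib
import Pool.Agent.Y114.AP.Defs
import Pool.Agent.Y114.AP.Pot
import Pool.Agent.Y114.AP.Tame2
import Pool.Agent.Y114.AP.Local
import Pool.Agent.Y114.TF.Main

/-!
# The Tate conjecture at all primes, from finitely many places
-/

set_option autoImplicit false
set_option linter.unusedSectionVars false

namespace Pool.Agent.Y114.AP

open NumberField Module Polynomial Pool.Agent.H204R3.GP IntermediateField Pool.Agent.Y114.TF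

theorem main {ι : Type} [Fintype ι] {n : ι → ℕ} {Γ : Type} [Group Γ] (R : Realizations n Γ)
    {J : Type} (F : J → ι → Type) [∀ j i, Field (F j i)] [∀ j i, NumberField (F j i)]
    [∀ j i, IsCMField (F j i)] (p a : J → ℕ) (π : ∀ j i, F j i) (γ : J → Γ)
    (hγ' : ∀ j, R.IsFrobenius (γ j) (p j) (a j) (π j))
    (L : Type) [Field L] [NumberField L] [IsGalois ℚ L]
    (hcard : ∀ j i, Fintype.card (F j i →+* L) = finrank ℚ (F j i))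
    (hrel : ∀ j, OnlyTrivialRelations (π j) L)
    (ℓ : ℕ) (hℓ : ℓ.Prime) (hJ : ∃ j, p j ≠ ℓ)
    (htame : ∀ i d, 0 < d → d < n i → ∃ p o, p ≠ ℓ ∧ ¬ o ∣ d ∧ TameAt R i p o)
    (hmon : ∀ i, ∃ p, p ≠ ℓ ∧ LargeMonodromyAt R i p) : R.TateAt ℓ := by
  classical
  obtain ⟨j₀⟩ : Nonempty (L →+* ℂ) := inferInstance
  have hL : ∀ j i, ∀ ψ : F j i →+* ℂ, ∃ φ : F j i →+* L, j₀.comp φ = ψ :=
    fun j i ψ => exists_comp (hcard j i) j₀ ψ
  have hF : Fact ℓ.Prime := ⟨hℓ⟩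
  obtain ⟨j, hj⟩ := hJ
  obtain ⟨hp, ha, hgen, hweil, hfr⟩ := hγ' j
  obtain ⟨hχ, hγ⟩ := hfr ℓ hj.symm
  have hpj : Fact (p j).Prime := ⟨hp⟩
  refine ⟨hF, ?_⟩
  refine local_main (R.ρ ℓ) (R.χ ℓ) (R.ω ℓ) ha (π j) hgen hweil j₀ (hL j) (hrel j)
    (R.alt ℓ) (R.nondeg ℓ) (R.sim ℓ) (γ j) hχ hγ fun i Δ hΔ => ?_
  have hfr : finrank ℚ_[ℓ] (Fin (n i) → ℚ_[ℓ]) = n i := by simp
  have hirr : ∀ U : Submodule ℚ_[ℓ] (Fin (n i) → ℚ_[ℓ]),
      (∀ g, ∀ u ∈ U, R.ρ ℓ i g u ∈ U) → U = ⊥ ∨ U = ⊤ := by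
    intro U hU
    by_contra hcon
    rw [not_or] at hcon
    have h1 : 0 < finrank ℚ_[ℓ] U := by
      rw [Nat.pos_iff_ne_zero, Ne, Submodule.finrank_eq_zero]
      exact hcon.1
    have h2 : finrank ℚ_[ℓ] U < n i := by
      have := Submodule.finrank_lt hcon.2
      rwa [hfr] at this
    obtain ⟨p', o, hp', ho, t, φ, q, E, hE, h3⟩ := htame i _ h1 h2
    obtain ⟨h4, h5⟩ := h3 ℓ hp'.symm
    apply ho
    refine tame_dvd (R.ρ ℓ i t) (R.ρ ℓ i φ) ?_ q ?_ o E hE h5 U (hU t) (hU φ)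
    · intro x y hxy
      have := congrArg (R.ρ ℓ i φ⁻¹) hxy
      rwa [rho_mul_inv, rho_mul_inv] at this
    · rw [← map_pow, ← h4, ← map_mul, ← map_mul, mul_assoc, inv_mul_cancel, mul_one]
  obtain ⟨p', hp', τ, e, h6⟩ := hmon i
  obtain ⟨h7, h8⟩ := h6 ℓ hp'.symm
  rw [map_pow] at h7 h8
  exact potentially (R.ρ ℓ i) hirr h7 (by rw [hfr]; exact h8) Δ hΔ

end Pool.Agent.Y114.AP
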